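import Mathlib
import Pool.Agent.T2H36.FB.A4

/-!
# The integral and adelic Mumford-Tate conjecture for `H^2` at 100 percent of the primes: fibres of
families with big monodromy (unconditional)

Let `f : X → B` be a smooth projective family of varieties over a connected base `B` over a number
field, and suppose that the local system `H^2(X_b, ℤ(1)) / torsion` is commensurable to
`N ⊕ T_1 ⊕ ... ⊕ T_r` where the monodromy on `N = ℤ^κ` is finite and `T_i = ℤ^(n_i)` carries a
nondegenerate invariant form `Q_i` (for example `r = 1`, `N` is the algebraic part and `T_1` the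
transcendental part of the cohomology of the general fibre, for the universal family of smooth
surfaces of degree `d` in `ℙ^3`; products of such families; ...). The rank `n_i` is odd and `≥ 5`,
or even and `≥ 8`.

`A` is the topological fundamental group of `B(ℂ)` with the monodromy representation `mon`, `Γ` the
étale fundamental group of `B`, `τ : A → Γ` the canonical homomorphism and `α_ℓ ⊕ β_(1,ℓ) ⊕ ...` the
representation of `Γ` on the `ℓ`-adic cohomology. A point `b` of `B` over a number field `K` gives a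
homomorphism `s : G_K → Γ`. Suppose that the monodromy is big: the identity component of the Zariski
closure of `mon(A)` contains `1 × SO(T_1) × ... × SO(T_r)`.

**Theorem.** There is an open normal subgroup `N₀` of `Γ` such that the following holds for all number
fields `K` and all points `b` of `B` over `K` for which `G_K → Γ / N₀` is surjective, and for which the
Mumford-Tate group of the Hodge structure `H^2(X_b) = N ⊕ T_1 ⊕ ... ⊕ T_r` is `1 × SO(T_1) × ... ×
SO(T_r)`. Let `F` be a finite extension of `K` for which the Zariski closures of the images of `G_F`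
are connected (`F = K^conn`). Then for all prime numbers `ℓ` in a set `Λ` of natural density one
the image of `G_F` in `GL(H^2(X_b, ℤ_ℓ(1)))` is a subgroup of index at most `2^r` of `𝐆(ℤ_ℓ)`, `𝐆` the
Zariski closure of the Mumford-Tate group of `X_b`; and the image of `G_F` in `∏_{ℓ ∈ Λ} 𝐆(ℤ_ℓ)`
contains a product `∏_{ℓ ∈ Λ} Ω_ℓ` of subgroups `Ω_ℓ` of index at most `2^r`.

The two conditions on `b`: (1) the points `b` over a fixed number field `K` for which `G_K → Γ / N₀` is
not surjective form a thin set; so by Hilbert's irreducibility theorem, if `B` is an open subset of a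
rational variety over `K` with a model of `Γ` over `K`, then the condition holds for almost all `b`
in `B(K)`. (2) The Mumford-Tate group is as large as possible outside the Hodge locus of the family.
There is no other hypothesis on the Galois representations of `X_b`: the existence of the Frobenius
polynomials with rational coefficients which do not depend on `ℓ` is a theorem of Deligne, and the
existence of `F` is the theorem of Serre which is quoted in the problem file. For `h^(2,0) > 1` the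
Mumford-Tate conjecture is not known for the fibres over the points `b` outside of the Hodge locus.

Idea of the proof: by the comparison of topological and étale monodromy the identity component of
the Zariski closure of the image of `Γ` at a suitable prime `ℓ₀` (all `n_i - 1` and `(n_i - 2)(n_i - 4)`
and the discriminants are prime to `ℓ₀`) contains `∏ SO(T_i)`; so (theorem in the starting files) the
image of `Γ` in `∏ GL(T_i ⊗ ℤ_ℓ₀)` is open in `∏ O(T_i ⊗ ℤ_ℓ₀)`. It is a compact group with an open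
subgroup which is a finitely generated pro-`ℓ₀` group, so its Frattini subgroup is open (proved here in
the following form: a closed subgroup which is large modulo a suitable open normal subgroup is
everything); this gives `N₀`. So for the points `b` as above the image of `G_K` at `ℓ₀` is the image of
`Γ`, and the theorem on one prime (`AdelicSumOnePrime`, in the form where one only assumes that the
`ℓ₀`-adic image is large) gives the statement at 100 percent of the primes.
-/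

set_option autoImplicit false

namespace Pool.Agent.Results.MP_2b5912_ag.AdelicFibres

open MvPolynomial Matrix Filter Topology NumberField IsDedekindDomain
open Pool.Agent.W544.PG (HS)

noncomputable section

section groups

variable {ι : Type} [Fintype ι] [DecidableEq ι]

/-- The value of a rational polynomial in the entries at a matrix. -/
def value {R : Type} [CommRing R] [Algebra ℚ R] (g : Matrix ι ι R)
    (f : MvPolynomial (ι × ι) ℚ) : R :=
  aeval (fun q : ι × ι => g q.1 q.2) f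

/-- `G` is the set of complex points of an algebraic subgroup over `ℚ` of the general linear
group. -/
def IsQGroup (G : Set (Matrix ι ι ℂ)) : Prop :=
  (∃ P : Set (MvPolynomial (ι × ι) ℚ), ∀ g, g ∈ G ↔ g.det ≠ 0 ∧ ∀ f ∈ P, value g f = 0) ∧
  1 ∈ G ∧ (∀ a ∈ G, ∀ b ∈ G, a * b ∈ G) ∧ ∀ a ∈ G, a⁻¹ ∈ G

/-- The complex points of the Mumford-Tate group: the smallest algebraic subgroup over `ℚ` which
contains `h z` for all `z`. -/
def mumfordTate (h : ℂ → Matrix ι ι ℂ) : Set (Matrix ι ι ℂ) :=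
  {g | ∀ G, IsQGroup G → (∀ z, z ≠ 0 → h z ∈ G) → g ∈ G}

/-- The points of the Mumford-Tate group over a field `R`. -/
def InMumfordTate {R : Type} [Field R] [Algebra ℚ R] (h : ℂ → Matrix ι ι ℂ)
    (g : Matrix ι ι R) : Prop :=
  ∀ f : MvPolynomial (ι × ι) ℚ, (∀ m ∈ mumfordTate h, value m f = 0) → value g f = 0

variable {ℓ : ℕ} [Fact ℓ.Prime] {Γ : Type} [Group Γ]

/-- The points of the identity component of the Zariski closure of `mon(A)` in the complex matrices: a
polynomial that vanishes on the image of a subgroup of finite index vanishes at `g`. -/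
def InTopologicalMonodromy {A : Type} [Group A] (mon : A →* Matrix ι ι ℤ) (g : Matrix ι ι ℂ) :
    Prop :=
  ∀ f : MvPolynomial (ι × ι) ℂ,
    (∃ Δ : Subgroup A, Δ.FiniteIndex ∧
      ∀ γ ∈ Δ, aeval (fun q : ι × ι => (mon γ q.1 q.2 : ℂ)) f = 0) →
    aeval (fun q : ι × ι => g q.1 q.2) f = 0

/-- an integral representation as a representation over `ℚ_ℓ` -/
def rational (ρ : Γ →* Matrix ι ι ℤ_[ℓ]) : Γ →* Matrix ι ι ℚ_[ℓ] :=
  ((algebraMap ℤ_[ℓ] ℚ_[ℓ]).mapMatrix : Matrix ι ι ℤ_[ℓ] →+* Matrix ι ι ℚ_[ℓ]).toMonoidHom.comp ρ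

/-- the Zariski closure of the image of `ρ` over `ℚ_ℓ` is connected: a polynomial that vanishes on
the image of a subgroup of finite index vanishes on the image of `ρ` -/
def IsConnected (ρ : Γ →* Matrix ι ι ℤ_[ℓ]) : Prop :=
  ∀ f : MvPolynomial (ι × ι) ℚ_[ℓ], (∃ Δ : Subgroup Γ, Δ.FiniteIndex ∧
    ∀ σ ∈ Δ, aeval (fun q : ι × ι => (ρ σ q.1 q.2 : ℚ_[ℓ])) f = 0) →
    ∀ σ, aeval (fun q : ι × ι => (ρ σ q.1 q.2 : ℚ_[ℓ])) f = 0

variable (ℓ) in
/-- `𝐆(ℤ_ℓ)`, `𝐆` the Zariski closure of the Mumford-Tate group in the general linear group over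
`ℤ` -/
def integralPoints (h : ℂ → Matrix ι ι ℂ) : Set (Matrix ι ι ℤ_[ℓ]) :=
  {g | IsUnit g.det ∧ InMumfordTate h (g.map (algebraMap ℤ_[ℓ] ℚ_[ℓ]))}

/-- `Ω` is a subgroup of index at most `m` of `G`: `G` is a union of at most `m` cosets `c Ω` -/
def IsIndexAtMost (m : ℕ) {R : Type} [CommRing R] (Ω G : Set (Matrix ι ι R)) : Prop :=
  Ω ⊆ G ∧ 1 ∈ Ω ∧ (∀ a ∈ Ω, ∀ b ∈ Ω, a * b ∈ Ω) ∧ (∀ a ∈ Ω, a⁻¹ ∈ Ω) ∧
    ∃ C : Set (Matrix ι ι R), C.Finite ∧ C.ncard ≤ m ∧ C ⊆ G ∧ ∀ g ∈ G, ∃ c ∈ C, ∃ ω ∈ Ω, g = c * ω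

/-- **the integral and adelic Mumford-Tate conjecture for the prime numbers in `Λ`, with the constant
`m`**: the image of `ρ_ℓ` is contained in `𝐆(ℤ_ℓ)` for all `ℓ` in `Λ`, and the image of `(ρ_ℓ)_ℓ` in
the product of the groups `𝐆(ℤ_ℓ)` over the `ℓ` in `Λ` contains the product of subgroups `Ω_ℓ` of
index at most `m` -/
def AdelicMumfordTate (m : ℕ) (h : ℂ → Matrix ι ι ℂ)
    (ρ : ∀ (ℓ : ℕ) [Fact ℓ.Prime], Γ →* Matrix ι ι ℤ_[ℓ]) (Λ : Set ℕ) : Prop :=
  (∀ (ℓ : ℕ) [Fact ℓ.Prime], ℓ ∈ Λ → ∀ σ, ρ ℓ σ ∈ integralPoints ℓ h) ∧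
  ∃ Ω : ∀ (ℓ : ℕ) [Fact ℓ.Prime], Set (Matrix ι ι ℤ_[ℓ]),
    (∀ (ℓ : ℕ) [Fact ℓ.Prime], ℓ ∈ Λ → IsIndexAtMost m (Ω ℓ) (integralPoints ℓ h)) ∧
    ∀ g : ∀ (ℓ : ℕ) [Fact ℓ.Prime], Matrix ι ι ℤ_[ℓ],
      (∀ (ℓ : ℕ) [Fact ℓ.Prime], ℓ ∈ Λ → g ℓ ∈ Ω ℓ) →
      ∃ σ : Γ, ∀ (ℓ : ℕ) [Fact ℓ.Prime], ℓ ∈ Λ → ρ ℓ σ = g ℓ

end groups

section sums

variable {ι : Type} [Fintype ι] [DecidableEq ι] {n : ι → ℕ}

/-- a matrix on `N` and matrices on the `T_i` as a block diagonal matrix on `N ⊕ T_1 ⊕ ... ⊕ T_r` -/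
def blocks {κ : Type} {R : Type} [Zero R] (a : Matrix κ κ R)
    (t : ∀ i, Matrix (Fin (n i)) (Fin (n i)) R) :
    Matrix (κ ⊕ Σ i, Fin (n i)) (κ ⊕ Σ i, Fin (n i)) R :=
  fromBlocks a 0 0 (blockDiagonal' t)

/-- The action of `ℂ^×` on `N ⊕ T_1 ⊕ ... ⊕ T_r`: trivial on `N`, and on `T_i` it is multiplication by
`conj z / z`, `1`, `z / conj z` on the parts where `(T i).x` is `1`, `0`, `-1`. -/
def hodge (κ : Type) [Fintype κ] [DecidableEq κ] (T : ∀ i, HS (n i)) (z : ℂ) :
    Matrix (κ ⊕ Σ i, Fin (n i)) (κ ⊕ Σ i, Fin (n i)) ℂ :=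
  blocks 1 fun i => 1 + ((starRingEnd ℂ z / z - 1) / 2) • ((T i).x * (T i).x + (T i).x) +
    ((z / starRingEnd ℂ z - 1) / 2) • ((T i).x * (T i).x - (T i).x)

/-- The representation `α ⊕ β_1 ⊕ ... ⊕ β_r` of the Galois group on `N ⊕ T_1 ⊕ ... ⊕ T_r`. -/
def galois {κ : Type} [Fintype κ] [DecidableEq κ] {ℓ : ℕ} [Fact ℓ.Prime] {Γ : Type} [Group Γ]
    (α : Γ →* Matrix κ κ ℤ_[ℓ]) (β : ∀ i, Γ →* Matrix (Fin (n i)) (Fin (n i)) ℤ_[ℓ]) :
    Γ →* Matrix (κ ⊕ Σ i, Fin (n i)) (κ ⊕ Σ i, Fin (n i)) ℤ_[ℓ] where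
  toFun σ := blocks (α σ) fun i => β i σ
  map_one' := (Pool.Agent.T2H36.IX.totS α β).map_one
  map_mul' := (Pool.Agent.T2H36.IX.totS α β).map_mul

end sums

/-- the absolute Galois group of `K`, with its profinite (Krull) topology -/
abbrev AbsoluteGaloisGroup (K : Type) [Field K] : Type := Gal(AlgebraicClosure K/K)

/-- `σ` is an (arithmetic) Frobenius element at the prime `v` of the number field `K`: for some prime
`Q` of the algebraic closure above `v` it acts on the residue field as `x ↦ x ^ N(v)` -/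
def IsFrobenius {K : Type} [Field K] [NumberField K] (v : HeightOneSpectrum (𝓞 K))
    (σ : AbsoluteGaloisGroup K) : Prop :=
  ∃ Q : Ideal (𝓞 (AlgebraicClosure K)), Q.IsMaximal ∧
    Q.comap (algebraMap (𝓞 K) (𝓞 (AlgebraicClosure K))) = v.asIdeal ∧
    ∀ x : 𝓞 (AlgebraicClosure K), σ • x - x ^ Ideal.absNorm v.asIdeal ∈ Q

/-- for all `v ∉ S` which are prime to `ℓ` the characteristic polynomial of the geometric Frobenius
elements `σ⁻¹` (`σ` arithmetic) at `v` under the representation `β` is `P v` -/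
def HasFrobeniusPolynomials {F : Type} [Field F] [NumberField F] {n : ℕ}
    (S : Set (HeightOneSpectrum (𝓞 F))) (P : HeightOneSpectrum (𝓞 F) → Polynomial ℚ) (ℓ : ℕ)
    [Fact ℓ.Prime] (β : AbsoluteGaloisGroup F →* Matrix (Fin n) (Fin n) ℤ_[ℓ]) : Prop :=
  ∀ v ∉ S, (ℓ : 𝓞 F) ∉ v.asIdeal → ∀ σ : AbsoluteGaloisGroup F, IsFrobenius v σ →
    (rational β σ⁻¹).charpoly = (P v).map (algebraMap ℚ ℚ_[ℓ])

/-- the set `A` of prime numbers has natural density zero -/
def HasDensityZero (A : Set ℕ) : Prop :=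
  Tendsto (fun n : ℕ => (Nat.card {ℓ : ℕ // ℓ ≤ n ∧ ℓ ∈ A} : ℝ) / (Nat.primeCounting n : ℝ))
    atTop (𝓝 0)

/-- **The integral and adelic Mumford-Tate conjecture for `H^2` at 100 percent of the primes: fibres of
families with big monodromy.** -/
theorem result {ι : Type} [Fintype ι] [DecidableEq ι] {n : ι → ℕ}
    (hn : ∀ i, (Odd (n i) ∧ 5 ≤ n i) ∨ (Even (n i) ∧ 8 ≤ n i))
    (κ : Type) [Fintype κ] [DecidableEq κ]
    -- the intersection forms
    (Q : ∀ i, Matrix (Fin (n i)) (Fin (n i)) ℚ) (hQs : ∀ i, (Q i)ᵀ = Q i) (hQ : ∀ i, (Q i).det ≠ 0)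
    -- the étale fundamental group of the base and its representations
    (Γ : Type) [Group Γ] [TopologicalSpace Γ] [IsTopologicalGroup Γ] [CompactSpace Γ]
    (α : ∀ (ℓ : ℕ) [Fact ℓ.Prime], Γ →* Matrix κ κ ℤ_[ℓ])
    (hα : ∀ (ℓ : ℕ) [Fact ℓ.Prime], (Set.range (α ℓ)).Finite)
    (β : ∀ (i : ι) (ℓ : ℕ) [Fact ℓ.Prime], Γ →* Matrix (Fin (n i)) (Fin (n i)) ℤ_[ℓ])
    (hβ : ∀ (i : ι) (ℓ : ℕ) [Fact ℓ.Prime], Continuous (β i ℓ))
    (hiso : ∀ (i : ι) (ℓ : ℕ) [Fact ℓ.Prime] (g : Γ),
      (rational (β i ℓ) g)ᵀ * (Q i).map (algebraMap ℚ ℚ_[ℓ]) * rational (β i ℓ) g =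
        (Q i).map (algebraMap ℚ ℚ_[ℓ]))
    -- the topological fundamental group and the monodromy representation
    (A : Type) [Group A] (τ : A →* Γ)
    (mon : A →* Matrix (κ ⊕ Σ i, Fin (n i)) (κ ⊕ Σ i, Fin (n i)) ℤ)
    (hcomp : ∀ (ℓ : ℕ) [Fact ℓ.Prime] (γ : A),
      galois (α ℓ) (fun i => β i ℓ) (τ γ) = (mon γ).map (Int.cast : ℤ → ℤ_[ℓ]))
    -- the monodromy is big
    (hbig : ∀ t : ∀ i, Matrix (Fin (n i)) (Fin (n i)) ℂ,
      (∀ i, (t i)ᵀ * (Q i).map (algebraMap ℚ ℂ) * t i = (Q i).map (algebraMap ℚ ℂ)) →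
      (∀ i, (t i).det = 1) → InTopologicalMonodromy mon (blocks 1 t)) :
    ∃ N₀ : Subgroup Γ, N₀.Normal ∧ IsOpen (N₀ : Set Γ) ∧
      -- the points `b` of the base over number fields `K` with `G_K → Γ / N₀` surjective
      ∀ (K : Type) [Field K] [NumberField K] (s : AbsoluteGaloisGroup K →* Γ), Continuous s →
        (∀ g : Γ, ∃ σ, (s σ)⁻¹ * g ∈ N₀) →
      -- the Hodge structure of the fibre, with Mumford-Tate group `1 × SO(T_1) × ... × SO(T_r)`
      ∀ (T : ∀ i, HS (n i)), (∀ i, (T i).Q = Q i) →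
        (∀ t : ∀ i, Matrix (Fin (n i)) (Fin (n i)) ℂ,
          (∀ i, (t i)ᵀ * (T i).Q.map (algebraMap ℚ ℂ) * t i = (T i).Q.map (algebraMap ℚ ℂ)) →
          (∀ i, (t i).det = 1) → blocks 1 t ∈ mumfordTate (hodge κ T)) →
      -- the finite extension `F` of `K`, `r` the inclusion of the Galois groups
      ∀ (F : Type) [Field F] [NumberField F] (r : AbsoluteGaloisGroup F →* AbsoluteGaloisGroup K),
        Continuous r → r.range.FiniteIndex →
      ∀ (S : Set (HeightOneSpectrum (𝓞 F))), S.Finite →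
      ∀ (P : ι → HeightOneSpectrum (𝓞 F) → Polynomial ℚ),
        (∀ (i : ι) (ℓ : ℕ) [Fact ℓ.Prime],
          HasFrobeniusPolynomials S (P i) ℓ ((β i ℓ).comp (s.comp r))) →
        (∀ (ℓ : ℕ) [Fact ℓ.Prime],
          IsConnected ((galois (α ℓ) fun i => β i ℓ).comp (s.comp r))) →
      ∃ Λ : Set ℕ, HasDensityZero {ℓ | ℓ.Prime ∧ ℓ ∉ Λ} ∧
        AdelicMumfordTate (2 ^ Fintype.card ι) (hodge κ T)
          (fun ℓ _ => (galois (α ℓ) fun i => β i ℓ).comp (s.comp r)) Λ :=
  Pool.Agent.T2H36.FB.fibres hn Q hQs hQ τ α hα β hβ hiso mon hcomp hbig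

end

end Pool.Agent.Results.MP_2b5912_ag.AdelicFibres
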