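import Mathlib
import Pool.Agent.T2H36.FP.P2

/-!
# The integral and adelic Mumford-Tate conjecture for `H^2` at 100 percent of the primes, from Frobenius
polynomials at finitely many places

Let `X` be a smooth projective variety over a number field `K = K^conn`, with `H^2(X, ℤ(1)) / torsion`
commensurable to `N ⊕ T_1 ⊕ ... ⊕ T_r`, where `N = ℤ^κ` are the algebraic classes and the `T_i = ℤ^(n_i)`
are polarised Hodge structures of level two (the transcendental part, with its decomposition into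
orthogonal summands; for example `X` can be a product of varieties). Let `P_i(v)` be the
characteristic polynomial of Frobenius on `T_i` at the place `v` of good reduction.

**Theorem.** Suppose that the Mumford-Tate group of `H^2(X)` is as large as possible for this
decomposition, that is `1 × SO(T_1) × ... × SO(T_r)`; that for every pair `i ≠ j` there is a place `v`
such that some root of `P_i(v)` has no positive power in the multiplicative group generated by the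
rational numbers and the roots of `P_j(v)`; and that every `T_i` has one of the following certificates.
* `n_i ≥ 5` is odd, and: (1) at some place `v₀`, `P_i(v₀) = (X - 1) Q₀`, where no complex root of `Q₀` is
  a root of unity and `x y ≠ z` for all complex roots `x`, `y`, `z` of `Q₀`; (2) at some place `v₁`,
  `P_i(v₁) = (X - 1) Q₁`, where no complex root of `Q₁` is a root of unity, and
  `Q₀(1) Q₀(-1) Q₁(1) Q₁(-1)` is not a square; (3) `u_0, ..., u_m` are places at which the roots of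
  `P_i(u_j)` are simple and no quotient of different roots is a root of unity, and for every `g` in
  `Gal(ℚ)` and every `d` with `2 ≤ d ≤ n_i - 2` there are a place `v` of this kind and an element `w` of
  `Gal(ℚ)` which agrees with `g` on the intersection of the splitting fields of the `P_i(u_j)` such
  that no set of `d` roots of `P_i(v)` is stable under `w`.
* `n_i ≥ 8` is even, and: (1) at some place the roots of `P_i(v)` are simple and satisfy no relation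
  `x w = z y`, `x ≠ y`, besides the obvious ones (`z = x`, `w = y`; `z y = w x = 1`); (2) as (3) in odd
  rank for `0 < d < n_i`, and for every `g` there are `v` and `w` of this kind such that `w` fixes a root.
* the image of `G_K` in the orthogonal group of `T_i ⊗ ℤ_ℓ₀` is open for one prime number `ℓ₀` (which
  may depend on `i`; it does not divide `n_i - 1` if `n_i ≥ 5` is odd; if `n_i ≥ 8` is even it does not
  divide `(n_i - 2)(n_i - 4)` and the discriminant of `T_i` has even valuation).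

Then for all prime numbers `ℓ` in a set `Λ` of natural density one the image of `G_K` in
`GL(H^2(X, ℤ_ℓ(1)))` is a subgroup of index at most `2^r` of `𝐆(ℤ_ℓ)`, `𝐆` the Zariski closure of the
Mumford-Tate group; and the image of `G_K` in `∏_{ℓ ∈ Λ} 𝐆(ℤ_ℓ)` contains a product
`∏_{ℓ ∈ Λ} Ω_ℓ` of subgroups `Ω_ℓ` of index at most `2^r`.

So for a given `X` (with large Mumford-Tate group) the integral and adelic conjecture at 100 percent
of the primes can be proved by a finite computation with Frobenius polynomials; no case of the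
Mumford-Tate conjecture is assumed, and nothing is assumed on the joint image on two summands. The
conditions hold for all `X` as above for which the Mumford-Tate conjecture holds at one prime number
`ℓ₀` which is good for all `T_i` (third certificate).

Idea of the proof: in the first two cases the theorems on density one in the starting files give a
prime number `ℓ₀` as in the third case. From `ℓ₀` one gets large images on `T_i` at 100 percent of the
primes (`AdelicSumOnePrime`). A place for the pair `(i, j)` gives two roots of `P_i(v)` whose product is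
not a quotient of two roots of `P_j(v)`, also modulo all large `ℓ`; this excludes an equivariant
isomorphism of the Lie algebras `so(T_i/ℓ)` and `so(T_j/ℓ)`, so that the images on `T_i` and `T_j` are
independent. Goursat's lemma for all `i` and all `ℓ` in `Λ`.
-/

set_option autoImplicit false

namespace Pool.Agent.Results.MP_2b5912_ag.AdelicFromPlaces

open MvPolynomial Matrix Filter Topology NumberField IsDedekindDomain
open Pool.Agent.W544.PG (HS)

noncomputable section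

section groups

variable {ι : Type} [Fintype ι] [DecidableEq ι]

/-- The value of a rational polynomial in the entries at a matrix. -/
def value {R : Type} [CommRing R] [Algebra ℚ R] (g : Matrix ι ι R)
    (f : MvPolynomial (ι × ι) ℚ) : R :=
  aeval (fun q : ι × ι => g q.1 q.2) f

/-- `G` is the set of complex points of an algebraic subgroup over `ℚ` of the general linear
group. -/
def IsQGroup (G : Set (Matrix ι ι ℂ)) : Prop :=
  (∃ P : Set (MvPolynomial (ι × ι) ℚ), ∀ g, g ∈ G ↔ g.det ≠ 0 ∧ ∀ f ∈ P, value g f = 0) ∧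
  1 ∈ G ∧ (∀ a ∈ G, ∀ b ∈ G, a * b ∈ G) ∧ ∀ a ∈ G, a⁻¹ ∈ G

/-- The complex points of the Mumford-Tate group: the smallest algebraic subgroup over `ℚ` which
contains `h z` for all `z`. -/
def mumfordTate (h : ℂ → Matrix ι ι ℂ) : Set (Matrix ι ι ℂ) :=
  {g | ∀ G, IsQGroup G → (∀ z, z ≠ 0 → h z ∈ G) → g ∈ G}

/-- The points of the Mumford-Tate group over a field `R`. -/
def InMumfordTate {R : Type} [Field R] [Algebra ℚ R] (h : ℂ → Matrix ι ι ℂ)
    (g : Matrix ι ι R) : Prop :=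
  ∀ f : MvPolynomial (ι × ι) ℚ, (∀ m ∈ mumfordTate h, value m f = 0) → value g f = 0

variable {ℓ : ℕ} [Fact ℓ.Prime] {Γ : Type} [Group Γ]

/-- an integral representation as a representation over `ℚ_ℓ` -/
def rational (ρ : Γ →* Matrix ι ι ℤ_[ℓ]) : Γ →* Matrix ι ι ℚ_[ℓ] :=
  ((algebraMap ℤ_[ℓ] ℚ_[ℓ]).mapMatrix : Matrix ι ι ℤ_[ℓ] →+* Matrix ι ι ℚ_[ℓ]).toMonoidHom.comp ρ

/-- the Zariski closure of the image of `ρ` over `ℚ_ℓ` is connected: a polynomial that vanishes on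
the image of a subgroup of finite index vanishes on the image of `ρ` -/
def IsConnected (ρ : Γ →* Matrix ι ι ℤ_[ℓ]) : Prop :=
  ∀ f : MvPolynomial (ι × ι) ℚ_[ℓ], (∃ Δ : Subgroup Γ, Δ.FiniteIndex ∧
    ∀ σ ∈ Δ, aeval (fun q : ι × ι => (ρ σ q.1 q.2 : ℚ_[ℓ])) f = 0) →
    ∀ σ, aeval (fun q : ι × ι => (ρ σ q.1 q.2 : ℚ_[ℓ])) f = 0

variable (ℓ) in
/-- `𝐆(ℤ_ℓ)`, `𝐆` the Zariski closure of the Mumford-Tate group in the general linear group over
`ℤ` -/
def integralPoints (h : ℂ → Matrix ι ι ℂ) : Set (Matrix ι ι ℤ_[ℓ]) :=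
  {g | IsUnit g.det ∧ InMumfordTate h (g.map (algebraMap ℤ_[ℓ] ℚ_[ℓ]))}

/-- `Ω` is a subgroup of index at most `m` of `G`: `G` is a union of at most `m` cosets `c Ω` -/
def IsIndexAtMost (m : ℕ) {R : Type} [CommRing R] (Ω G : Set (Matrix ι ι R)) : Prop :=
  Ω ⊆ G ∧ 1 ∈ Ω ∧ (∀ a ∈ Ω, ∀ b ∈ Ω, a * b ∈ Ω) ∧ (∀ a ∈ Ω, a⁻¹ ∈ Ω) ∧
    ∃ C : Set (Matrix ι ι R), C.Finite ∧ C.ncard ≤ m ∧ C ⊆ G ∧ ∀ g ∈ G, ∃ c ∈ C, ∃ ω ∈ Ω, g = c * ω

/-- **the integral and adelic Mumford-Tate conjecture for the prime numbers in `Λ`, with the constant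
`m`**: the image of `ρ_ℓ` is contained in `𝐆(ℤ_ℓ)` for all `ℓ` in `Λ`, and the image of `(ρ_ℓ)_ℓ` in
the product of the groups `𝐆(ℤ_ℓ)` over the `ℓ` in `Λ` contains the product of subgroups `Ω_ℓ` of
index at most `m` -/
def AdelicMumfordTate (m : ℕ) (h : ℂ → Matrix ι ι ℂ)
    (ρ : ∀ (ℓ : ℕ) [Fact ℓ.Prime], Γ →* Matrix ι ι ℤ_[ℓ]) (Λ : Set ℕ) : Prop :=
  (∀ (ℓ : ℕ) [Fact ℓ.Prime], ℓ ∈ Λ → ∀ σ, ρ ℓ σ ∈ integralPoints ℓ h) ∧
  ∃ Ω : ∀ (ℓ : ℕ) [Fact ℓ.Prime], Set (Matrix ι ι ℤ_[ℓ]),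
    (∀ (ℓ : ℕ) [Fact ℓ.Prime], ℓ ∈ Λ → IsIndexAtMost m (Ω ℓ) (integralPoints ℓ h)) ∧
    ∀ g : ∀ (ℓ : ℕ) [Fact ℓ.Prime], Matrix ι ι ℤ_[ℓ],
      (∀ (ℓ : ℕ) [Fact ℓ.Prime], ℓ ∈ Λ → g ℓ ∈ Ω ℓ) →
      ∃ σ : Γ, ∀ (ℓ : ℕ) [Fact ℓ.Prime], ℓ ∈ Λ → ρ ℓ σ = g ℓ

end groups

section sums

variable {ι : Type} [Fintype ι] [DecidableEq ι] {n : ι → ℕ}

/-- a matrix on `N` and matrices on the `T_i` as a block diagonal matrix on `N ⊕ T_1 ⊕ ... ⊕ T_r` -/
def blocks {κ : Type} {R : Type} [Zero R] (a : Matrix κ κ R)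
    (t : ∀ i, Matrix (Fin (n i)) (Fin (n i)) R) :
    Matrix (κ ⊕ Σ i, Fin (n i)) (κ ⊕ Σ i, Fin (n i)) R :=
  fromBlocks a 0 0 (blockDiagonal' t)

/-- The action of `ℂ^×` on `N ⊕ T_1 ⊕ ... ⊕ T_r`: trivial on `N`, and on `T_i` it is multiplication by
`conj z / z`, `1`, `z / conj z` on the parts where `(T i).x` is `1`, `0`, `-1`. -/
def hodge (κ : Type) [Fintype κ] [DecidableEq κ] (T : ∀ i, HS (n i)) (z : ℂ) :
    Matrix (κ ⊕ Σ i, Fin (n i)) (κ ⊕ Σ i, Fin (n i)) ℂ :=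
  blocks 1 fun i => 1 + ((starRingEnd ℂ z / z - 1) / 2) • ((T i).x * (T i).x + (T i).x) +
    ((z / starRingEnd ℂ z - 1) / 2) • ((T i).x * (T i).x - (T i).x)

/-- The representation `α ⊕ β_1 ⊕ ... ⊕ β_r` of the Galois group on `N ⊕ T_1 ⊕ ... ⊕ T_r`. -/
def galois {κ : Type} [Fintype κ] [DecidableEq κ] {ℓ : ℕ} [Fact ℓ.Prime] {Γ : Type} [Group Γ]
    (α : Γ →* Matrix κ κ ℤ_[ℓ]) (β : ∀ i, Γ →* Matrix (Fin (n i)) (Fin (n i)) ℤ_[ℓ]) :
    Γ →* Matrix (κ ⊕ Σ i, Fin (n i)) (κ ⊕ Σ i, Fin (n i)) ℤ_[ℓ] where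
  toFun σ := blocks (α σ) fun i => β i σ
  map_one' := (Pool.Agent.T2H36.IX.totS α β).map_one
  map_mul' := (Pool.Agent.T2H36.IX.totS α β).map_mul

end sums

/-- the absolute Galois group of `K`, with its profinite (Krull) topology -/
abbrev AbsoluteGaloisGroup (K : Type) [Field K] : Type := Gal(AlgebraicClosure K/K)

/-- `σ` is an (arithmetic) Frobenius element at the prime `v` of the number field `K`: for some prime
`Q` of the algebraic closure above `v` it acts on the residue field as `x ↦ x ^ N(v)` -/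
def IsFrobenius {K : Type} [Field K] [NumberField K] (v : HeightOneSpectrum (𝓞 K))
    (σ : AbsoluteGaloisGroup K) : Prop :=
  ∃ Q : Ideal (𝓞 (AlgebraicClosure K)), Q.IsMaximal ∧
    Q.comap (algebraMap (𝓞 K) (𝓞 (AlgebraicClosure K))) = v.asIdeal ∧
    ∀ x : 𝓞 (AlgebraicClosure K), σ • x - x ^ Ideal.absNorm v.asIdeal ∈ Q

/-- `β` is the representation on `T`: it is continuous and preserves the form of `T`, and for all
`v ∉ S` which are prime to `ℓ` the characteristic polynomial of the geometric Frobenius elements `σ⁻¹`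
(`σ` arithmetic) at `v` on `T` is `P v` -/
def IsSystem {K : Type} [Field K] [NumberField K] {n : ℕ} (T : HS n)
    (S : Set (HeightOneSpectrum (𝓞 K))) (P : HeightOneSpectrum (𝓞 K) → Polynomial ℚ) (ℓ : ℕ)
    [Fact ℓ.Prime] (β : AbsoluteGaloisGroup K →* Matrix (Fin n) (Fin n) ℤ_[ℓ]) : Prop :=
  Continuous β ∧
    (∀ σ, (rational β σ)ᵀ * T.Q.map (algebraMap ℚ ℚ_[ℓ]) * rational β σ =
      T.Q.map (algebraMap ℚ ℚ_[ℓ])) ∧
    ∀ v ∉ S, (ℓ : 𝓞 K) ∉ v.asIdeal → ∀ σ : AbsoluteGaloisGroup K, IsFrobenius v σ →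
      (rational β σ⁻¹).charpoly = (P v).map (algebraMap ℚ ℚ_[ℓ])

/-- the conditions on the rank `n` of `T` and the prime number `ℓ₀` -/
def IsGoodPrime {n : ℕ} (T : HS n) (ℓ₀ : ℕ) : Prop :=
  (Odd n ∧ 5 ≤ n ∧ ¬ ℓ₀ ∣ n - 1) ∨
    (Even n ∧ 8 ≤ n ∧ ¬ ℓ₀ ∣ (n - 2) * (n - 4) ∧ Even (padicValRat ℓ₀ T.Q.det))

/-- the image of `β` contains all isometries of the form `Q` which are close to `1` -/
def HasOpenImage {K : Type} [Field K] {n : ℕ} (Q : Matrix (Fin n) (Fin n) ℚ) (ℓ : ℕ)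
    [Fact ℓ.Prime] (β : AbsoluteGaloisGroup K →* Matrix (Fin n) (Fin n) ℤ_[ℓ]) : Prop :=
  ∃ ε : ℝ, 0 < ε ∧ ∀ g : Matrix (Fin n) (Fin n) ℚ_[ℓ],
    gᵀ * Q.map (algebraMap ℚ ℚ_[ℓ]) * g = Q.map (algebraMap ℚ ℚ_[ℓ]) →
    (∀ a b, ‖(g - 1) a b‖ < ε) → ∃ σ, rational β σ = g

/-- at the place `v` some root `x` of `P v` has no positive power in the multiplicative group
generated by the rational numbers and the roots of `R v` -/
def IsIndependentPlace {K : Type} [Field K] [NumberField K] (S : Set (HeightOneSpectrum (𝓞 K)))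
    (P R : HeightOneSpectrum (𝓞 K) → Polynomial ℚ) (v : HeightOneSpectrum (𝓞 K)) : Prop :=
  v ∉ S ∧ ∃ x : ℂˣ, Polynomial.aeval (x : ℂ) (P v) = 0 ∧ ∀ m : ℕ, 0 < m →
    x ^ m ∉ Subgroup.closure
      {y : ℂˣ | Polynomial.aeval (y : ℂ) (R v) = 0 ∨ ∃ q : ℚ, (y : ℂ) = (q : ℂ)}

/-- `P v = (X - 1) Q`, and no complex root of `Q` is a root of unity -/
def IsOrdinaryPlace {K : Type} [Field K] [NumberField K]
    (S : Set (HeightOneSpectrum (𝓞 K))) (P : HeightOneSpectrum (𝓞 K) → Polynomial ℚ)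
    (v : HeightOneSpectrum (𝓞 K)) (Q : Polynomial ℚ) : Prop :=
  v ∉ S ∧ P v = (Polynomial.X - 1) * Q ∧
    ∀ k : ℕ, 0 < k → ∀ x : ℂ, Polynomial.aeval x Q = 0 → x ^ k ≠ 1

/-- the roots of `P v` are simple, and different roots have different `k`-th powers for all `k > 0` -/
def IsRegularPlace {K : Type} [Field K] [NumberField K]
    (S : Set (HeightOneSpectrum (𝓞 K))) (P : HeightOneSpectrum (𝓞 K) → Polynomial ℚ)
    (v : HeightOneSpectrum (𝓞 K)) : Prop :=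
  v ∉ S ∧ (P v).Separable ∧ ∀ k : ℕ, 0 < k → ∀ x y : ℂ,
    Polynomial.aeval x (P v) = 0 → Polynomial.aeval y (P v) = 0 → x ^ k = y ^ k → x = y

/-- the roots of `P v` are simple, and they satisfy no relation `x w = z y`, `x ≠ y`, besides the
obvious ones -/
def IsGenericPlace {K : Type} [Field K] [NumberField K]
    (S : Set (HeightOneSpectrum (𝓞 K))) (P : HeightOneSpectrum (𝓞 K) → Polynomial ℚ)
    (v : HeightOneSpectrum (𝓞 K)) : Prop :=
  v ∉ S ∧ (P v).Separable ∧ ∀ x y z w : ℂ, Polynomial.aeval x (P v) = 0 →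
    Polynomial.aeval y (P v) = 0 → Polynomial.aeval z (P v) = 0 → Polynomial.aeval w (P v) = 0 →
    x ≠ y → x * w = z * y → (z = x ∧ w = y) ∨ (z * y = 1 ∧ w * x = 1)

/-- the splitting field of `Q` in the algebraic closure of `ℚ` -/
def splittingField (Q : Polynomial ℚ) : Set (AlgebraicClosure ℚ) :=
  (IntermediateField.adjoin ℚ {x : AlgebraicClosure ℚ | Polynomial.aeval x Q = 0} :
    IntermediateField ℚ (AlgebraicClosure ℚ))

/-- `R` is a set of roots of `Q` which is stable under `w` -/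
def IsStableSet (w : AbsoluteGaloisGroup ℚ) (Q : Polynomial ℚ) (R : Set (AlgebraicClosure ℚ)) :
    Prop :=
  (∀ x ∈ R, Polynomial.aeval x Q = 0) ∧ ∀ x ∈ R, w x ∈ R

/-- the certificate in odd rank -/
def OddCertificate {K : Type} [Field K] [NumberField K] (n : ℕ)
    (S : Set (HeightOneSpectrum (𝓞 K))) (P : HeightOneSpectrum (𝓞 K) → Polynomial ℚ) : Prop :=
  Odd n ∧ 5 ≤ n ∧ ∃ (v₀ v₁ : HeightOneSpectrum (𝓞 K)) (Q₀ Q₁ : Polynomial ℚ),
    IsOrdinaryPlace S P v₀ Q₀ ∧ IsOrdinaryPlace S P v₁ Q₁ ∧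
    (∀ x y z : ℂ, Polynomial.aeval x Q₀ = 0 → Polynomial.aeval y Q₀ = 0 →
      Polynomial.aeval z Q₀ = 0 → x * y ≠ z) ∧
    ¬ IsSquare (Q₀.eval 1 * Q₀.eval (-1) * (Q₁.eval 1 * Q₁.eval (-1))) ∧
    ∃ (m : ℕ) (u : Fin (m + 1) → HeightOneSpectrum (𝓞 K)), (∀ i, IsRegularPlace S P (u i)) ∧
      ∀ (g : AbsoluteGaloisGroup ℚ) (d : ℕ), 2 ≤ d → (d = 2 ∨ d + 2 ≤ n) →
        ∃ (v : HeightOneSpectrum (𝓞 K)) (w : AbsoluteGaloisGroup ℚ), IsRegularPlace S P v ∧
          (∀ x, (∀ i, x ∈ splittingField (P (u i))) → w x = g x) ∧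
          ∀ R, IsStableSet w (P v) R → R.ncard ≠ d

/-- the certificate in even rank -/
def EvenCertificate {K : Type} [Field K] [NumberField K] (n : ℕ)
    (S : Set (HeightOneSpectrum (𝓞 K))) (P : HeightOneSpectrum (𝓞 K) → Polynomial ℚ) : Prop :=
  Even n ∧ 8 ≤ n ∧ (∃ v, IsGenericPlace S P v) ∧
    ∃ (m : ℕ) (u : Fin (m + 1) → HeightOneSpectrum (𝓞 K)), (∀ i, IsRegularPlace S P (u i)) ∧
      (∀ (g : AbsoluteGaloisGroup ℚ) (d : ℕ), 0 < d → d < n →
        ∃ (v : HeightOneSpectrum (𝓞 K)) (w : AbsoluteGaloisGroup ℚ), IsRegularPlace S P v ∧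
          (∀ x, (∀ i, x ∈ splittingField (P (u i))) → w x = g x) ∧
          ∀ R, IsStableSet w (P v) R → R.ncard ≠ d) ∧
      ∀ g : AbsoluteGaloisGroup ℚ,
        ∃ (v : HeightOneSpectrum (𝓞 K)) (w : AbsoluteGaloisGroup ℚ), IsRegularPlace S P v ∧
          (∀ x, (∀ i, x ∈ splittingField (P (u i))) → w x = g x) ∧
          ∃ x : AlgebraicClosure ℚ, Polynomial.aeval x (P v) = 0 ∧ w x = x

/-- the certificate at one prime number -/
def PrimeCertificate {K : Type} [Field K] [NumberField K] {n : ℕ} (T : HS n)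
    (β : ∀ (ℓ : ℕ) [Fact ℓ.Prime], AbsoluteGaloisGroup K →* Matrix (Fin n) (Fin n) ℤ_[ℓ]) : Prop :=
  ∃ (ℓ₀ : ℕ) (_ : Fact ℓ₀.Prime), IsGoodPrime T ℓ₀ ∧ HasOpenImage T.Q ℓ₀ (β ℓ₀)

/-- the set `A` of prime numbers has natural density zero -/
def HasDensityZero (A : Set ℕ) : Prop :=
  Tendsto (fun n : ℕ => (Nat.card {ℓ : ℕ // ℓ ≤ n ∧ ℓ ∈ A} : ℝ) / (Nat.primeCounting n : ℝ))
    atTop (𝓝 0)

section proof

variable {K : Type} [Field K] [NumberField K] {n : ℕ} {T : HS n}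
  {S : Set (HeightOneSpectrum (𝓞 K))} {P : HeightOneSpectrum (𝓞 K) → Polynomial ℚ}
  {β : ∀ (ℓ : ℕ) [Fact ℓ.Prime], AbsoluteGaloisGroup K →* Matrix (Fin n) (Fin n) ℤ_[ℓ]}

theorem repT (h : ∀ (ℓ : ℕ) [Fact ℓ.Prime], IsSystem T S P ℓ (β ℓ)) (ℓ : ℕ) [Fact ℓ.Prime] :
    Pool.Agent.R932.RepT (MonoidHom.id (AbsoluteGaloisGroup K)) T S P ℓ (β ℓ) :=
  ⟨(h ℓ).1, (h ℓ).2.1, (h ℓ).2.2⟩

theorem nice (h : ∀ (ℓ : ℕ) [Fact ℓ.Prime], IsSystem T S P ℓ (β ℓ))
    {v : HeightOneSpectrum (𝓞 K)} (hv : IsRegularPlace S P v) : Pool.Agent.Y142.ZS.NiceP S P v := by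
  refine Pool.Agent.Y142.SS.nice_of_complexA
    (fun ℓ _ => (Pool.Agent.R932.qrep (β ℓ)).comp (MonoidHom.id _)) (fun ℓ _ => ?_) hv.1 hv.2.1
    hv.2.2
  exact ⟨((repT h ℓ).orthogonal continuous_id).1, fun v hv hvℓ σ hσ =>
    ((repT h ℓ).orthogonal continuous_id).2.2.2.2 v hv hvℓ σ hσ⟩

theorem mem_closure {m : ℕ}
    {u : Fin (m + 1) → HeightOneSpectrum (𝓞 K)} (hu : ∀ i, IsRegularPlace S P (u i))
    {g w : AbsoluteGaloisGroup ℚ} (hw : ∀ x, (∀ i, x ∈ splittingField (P (u i))) → w x = g x) :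
    w⁻¹ * g ∈ Subgroup.closure (⋃ i, Pool.Agent.Y142.SS.Fix (P (u i))) := by
  have hLf : ∀ (i : Fin (m + 1)) (x : AlgebraicClosure ℚ),
      x ∈ Pool.Agent.Y142.ZI.Lf (P (u i)) → x ∈ splittingField (P (u i)) := by
    intro i x hx
    have h2 : (P (u i)).rootSet (AlgebraicClosure ℚ) =
        {x : AlgebraicClosure ℚ | Polynomial.aeval x (P (u i)) = 0} := by
      ext y
      exact Polynomial.mem_rootSet_of_ne (hu i).2.1.ne_zero
    unfold Pool.Agent.Y142.ZI.Lf at hx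
    rw [h2] at hx
    exact hx
  refine Pool.Agent.Y142.SS.field_mem _ (fun i => (hu i).2.1.ne_zero) fun x hx => ?_
  rw [AlgEquiv.mul_apply, ← hw x fun i => hLf i x (hx i), ← AlgEquiv.mul_apply, inv_mul_cancel,
    AlgEquiv.one_apply]

omit [NumberField K] in
theorem full_of_open {ℓ : ℕ} [Fact ℓ.Prime] (h : HasOpenImage T.Q ℓ (β ℓ)) :
    Pool.Agent.Y142.ZI.FullLie ℓ ((Pool.Agent.R932.qrep (β ℓ)).comp (MonoidHom.id _))
      (T.Q.map (algebraMap ℚ ℚ_[ℓ])) := by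
  obtain ⟨ε, hε, hopen⟩ := h
  exact Pool.Agent.R932.OP.cay ℓ n _ _ _ (Pool.Agent.R932.qsymm T) (Pool.Agent.R932.qdet T)
    ⟨ε, hε, fun g hg hgε => hopen g hg hgε⟩

theorem one_prime (hS : S.Finite) (h : ∀ (ℓ : ℕ) [Fact ℓ.Prime], IsSystem T S P ℓ (β ℓ))
    (hc : OddCertificate n S P ∨ EvenCertificate n S P ∨ PrimeCertificate T β) :
    ∃ (ℓ₀ : ℕ) (_ : Fact ℓ₀.Prime), Pool.Agent.T2H36.IX.GoodPrime n T.Q ℓ₀ ∧
      Pool.Agent.Y142.ZI.FullLie ℓ₀ ((Pool.Agent.R932.qrep (β ℓ₀)).comp (MonoidHom.id _))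
        (T.Q.map (algebraMap ℚ ℚ_[ℓ₀])) := by
  rcases hc with ⟨hodd, h5, v₀, v₁, Q₀, Q₁, hv₀, hv₁, hxyz, hsq, m, u, hu, hd⟩ |
    ⟨heven, h8, ⟨v₀, hv₀⟩, m, u, hu, hd, hf⟩ | ⟨ℓ₀, hp, hg, ho⟩
  · refine Pool.Agent.T2H36.FP.odd_prime hodd h5 hS β (fun ℓ _ => repT h ℓ)
      ⟨hv₀.1, hv₀.2.1, fun k hk => Pool.Agent.Y142.ZO.coprime_of_roots hv₀.2.2 k hk⟩ hxyz
      ⟨hv₁.1, hv₁.2.1, fun k hk => Pool.Agent.Y142.ZO.coprime_of_roots hv₁.2.2 k hk⟩ hsq u
      (fun i => nice h (hu i)) ?_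
    intro g d hd2 hdn
    obtain ⟨v, w, hv, hw, hR⟩ := hd g d hd2 hdn
    exact ⟨v, nice h hv, w, fun R h1 h2 => hR R ⟨h1, h2⟩, mem_closure hu hw⟩
  · refine Pool.Agent.T2H36.FP.even_prime heven h8 hS β (fun ℓ _ => repT h ℓ) (w₀ := v₀) ?_ u
      (fun i => nice h (hu i)) ?_ ?_
    · obtain ⟨ℓ₁, hℓ₁, hp₁⟩ := Nat.exists_infinite_primes (Ideal.absNorm v₀.asIdeal + 1)
      have : Fact ℓ₁.Prime := ⟨hp₁⟩
      refine Pool.Agent.Y142.SU.gen_of_complexU hv₀.1 (Pool.Agent.T2H36.IX.repT_poly (repT h ℓ₁)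
        hv₀.1 (Pool.Agent.Y142.ZO.not_mem_of_lt v₀ hp₁ (by omega))).1 one_ne_zero hv₀.2.1 ?_
      intro x y z w hx hy hz hw hxy hxw
      simpa using hv₀.2.2 x y z w hx hy hz hw hxy hxw
    · intro g d hd0 hdn
      obtain ⟨v, w, hv, hw, hR⟩ := hd g d hd0 hdn
      exact ⟨v, nice h hv, w, fun R h1 h2 => hR R ⟨h1, h2⟩, mem_closure hu hw⟩
    · intro g
      obtain ⟨v, w, hv, hw, x, hx, hwx⟩ := hf g
      exact ⟨v, nice h hv, w, ⟨x, hx, hwx⟩, mem_closure hu hw⟩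
  · exact ⟨ℓ₀, hp, hg, full_of_open ho⟩

end proof

/-- **The integral and adelic Mumford-Tate conjecture for `H^2` at 100 percent of the primes, from
Frobenius polynomials at finitely many places.** -/
theorem result {ι : Type} [Fintype ι] [DecidableEq ι] {n : ι → ℕ} (T : ∀ i, HS (n i))
    (κ : Type) [Fintype κ] [DecidableEq κ]
    -- the Mumford-Tate group is `1 × SO(T_1) × ... × SO(T_r)`
    (hT : ∀ t : ∀ i, Matrix (Fin (n i)) (Fin (n i)) ℂ,
      (∀ i, (t i)ᵀ * (T i).Q.map (algebraMap ℚ ℂ) * t i = (T i).Q.map (algebraMap ℚ ℂ)) →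
      (∀ i, (t i).det = 1) → blocks 1 t ∈ mumfordTate (hodge κ T))
    -- the Galois representations
    (K : Type) [Field K] [NumberField K]
    (S : Set (HeightOneSpectrum (𝓞 K))) (hS : S.Finite)
    (P : ι → HeightOneSpectrum (𝓞 K) → Polynomial ℚ)
    (α : ∀ (ℓ : ℕ) [Fact ℓ.Prime], AbsoluteGaloisGroup K →* Matrix κ κ ℤ_[ℓ])
    (hα : ∀ (ℓ : ℕ) [Fact ℓ.Prime], (Set.range (α ℓ)).Finite)
    (β : ∀ (i : ι) (ℓ : ℕ) [Fact ℓ.Prime],
      AbsoluteGaloisGroup K →* Matrix (Fin (n i)) (Fin (n i)) ℤ_[ℓ])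
    (hsys : ∀ (i : ι) (ℓ : ℕ) [Fact ℓ.Prime], IsSystem (T i) S (P i) ℓ (β i ℓ))
    (hconn : ∀ (ℓ : ℕ) [Fact ℓ.Prime], IsConnected (galois (α ℓ) fun i => β i ℓ))
    -- the certificates
    (hone : ∀ i, OddCertificate (n i) S (P i) ∨ EvenCertificate (n i) S (P i) ∨
      PrimeCertificate (T i) (β i))
    (hpair : ∀ i j, i ≠ j → ∃ v, IsIndependentPlace S (P i) (P j) v) :
    ∃ Λ : Set ℕ, HasDensityZero {ℓ | ℓ.Prime ∧ ℓ ∉ Λ} ∧
      AdelicMumfordTate (2 ^ Fintype.card ι) (hodge κ T)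
        (fun ℓ _ => galois (α ℓ) fun i => β i ℓ) Λ :=
  Pool.Agent.T2H36.FP.main_sumP (s := MonoidHom.id (AbsoluteGaloisGroup K)) hT hS continuous_id α hα
    β (fun i ℓ _ => repT (hsys i) ℓ) hconn (fun i => one_prime hS (hsys i) (hone i))
    (fun i j hij => by
      obtain ⟨v, hv, hx⟩ := hpair i j hij
      exact ⟨v, hv, hx⟩)

end

end Pool.Agent.Results.MP_2b5912_ag.AdelicFromPlaces
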