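import Mathlib
import Pool.Agent.T2H36.DD.D5

/-!
# The integral and adelic Mumford-Tate conjecture for `H^2` at 100 percent of the primes, from the
Mumford-Tate conjecture at one prime: several orthogonal summands

Let `X` be a smooth projective variety over a field `k` which is finitely generated over `ℚ`, with
`H^2(X, ℤ(1)) / torsion` commensurable to `N ⊕ T_1 ⊕ ... ⊕ T_r`, where `N = ℤ^κ` are the algebraic
classes and the `T_i = ℤ^(n_i)` are polarised Hodge structures of level two (the transcendental part,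
with its decomposition into orthogonal summands; for example `X` can be a product of varieties).
`Γ` is the Galois group of `k^conn` (or the fundamental group of a model over which all the
representations are defined), `K` is a number field and `s : G_K → Γ` is the homomorphism given by a
closed point of the generic fibre of a model (if `k` is a number field then `K = k^conn` and `s` is
the identity).

**Theorem.** Suppose that the Mumford-Tate group of `H^2(X)` is as large as possible for this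
decomposition, that is `1 × SO(T_1) × ... × SO(T_r)`, and that for ONE prime number `ℓ₀` the
(rational) Mumford-Tate conjecture holds for `X` (at the chosen closed point), where for each `i` the
rank `n_i` is odd, `n_i ≥ 5` and `ℓ₀` does not divide `n_i - 1`, or `n_i` is even, `n_i ≥ 8`, `ℓ₀` does
not divide `(n_i - 2)(n_i - 4)` and the valuation of the discriminant of `T_i` at `ℓ₀` is even.  Then
for all prime numbers `ℓ` in a set `Λ` of natural density one the image of `Γ` in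
`GL(H^2(X, ℤ_ℓ(1)))` is a subgroup of index at most `2^r` of `𝐆(ℤ_ℓ)`, `𝐆` the Zariski closure of the
Mumford-Tate group; and these images are as independent as possible: the image of `Γ` in
`∏_{ℓ ∈ Λ} 𝐆(ℤ_ℓ)` contains a product `∏_{ℓ ∈ Λ} Ω_ℓ` of subgroups `Ω_ℓ` of index at most `2^r`.

Idea of the proof: (1) (starting files, with changes) from one prime with open image in `SO(T_i)` one
gets by Chebotarev and by the method of independent splitting fields: for every `d`, at 100 percent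
of the `ℓ` no subgroup of index at most `d` of the image modulo `ℓ` stabilises a proper subspace of
`T_i/ℓ`.  (2) A Frobenius polynomial with multiplicatively independent roots exists, and its reduction
modulo `ℓ` has the same multiplicative relations for large `ℓ`.  (3) If the order of a group `G` of
isometries modulo `ℓ` is prime to `ℓ` then `G` lifts to characteristic zero and has a normal abelian
subgroup of bounded index (Jordan), against (1). Hence closed normal subgroups which are not too small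
contain elements of order `ℓ` modulo `ℓ`; their logarithms span a Lie subalgebra of `so(T_i/ℓ)` which
is stable under the Frobenius element in (2) and so is a sum of root spaces, and by irreducibility it is
`so(T_i/ℓ)`.  (4) A group which contains the exponentials of a basis of `so(T_i/ℓ)` has at least
`c ℓ^{n(n-1)/2}` elements (a lower bound for the number of values of a polynomial map), so it has
bounded index in the orthogonal group and contains all elements of order `ℓ`. (5) Successive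
approximation gives all of the congruence subgroup. (6) Independence of two summands modulo the same
`ℓ`: at the prime `ℓ₀` one finds a Frobenius element such that a root on `T_i` (tamely ramified over
`ℚ_ℓ₀`) is multiplicatively independent of the roots on the other summands (unramified); then a product
of two roots on `T_i` is not a quotient of two roots on `T_j`, which remains true modulo all large `ℓ`
and excludes an equivariant isomorphism between the Lie algebras `so(T_i/ℓ)` and `so(T_j/ℓ)`; the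
logarithms of the elements of order `ℓ` in the joint image span a subalgebra of the product which
projects onto both factors, and it is the product (Goursat).  (7) The kernel of the representation on
`T_j ⊗ ℤ_ℓ` contains an element of order `ℓ` modulo `ℓ` on `T_i`: a limit of the `ℓ^k`-th powers of an
element with a semisimple reduction on `T_i`, and a commutator.  (8) Goursat's lemma in the form of a
noncommutative `ℓ`-group in the `ℓ`-component for the independence of different `ℓ`.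
-/

set_option autoImplicit false

namespace Pool.Agent.Results.MP_2b5912_ag.AdelicSumOnePrime

open MvPolynomial Matrix Filter Topology NumberField IsDedekindDomain
open Pool.Agent.W544.PG (HS)

noncomputable section

section groups

variable {ι : Type} [Fintype ι] [DecidableEq ι]

/-- The value of a rational polynomial in the entries at a matrix. -/
def value {R : Type} [CommRing R] [Algebra ℚ R] (g : Matrix ι ι R)
    (f : MvPolynomial (ι × ι) ℚ) : R :=
  aeval (fun q : ι × ι => g q.1 q.2) f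

/-- `G` is the set of complex points of an algebraic subgroup over `ℚ` of the general linear
group. -/
def IsQGroup (G : Set (Matrix ι ι ℂ)) : Prop :=
  (∃ P : Set (MvPolynomial (ι × ι) ℚ), ∀ g, g ∈ G ↔ g.det ≠ 0 ∧ ∀ f ∈ P, value g f = 0) ∧
  1 ∈ G ∧ (∀ a ∈ G, ∀ b ∈ G, a * b ∈ G) ∧ ∀ a ∈ G, a⁻¹ ∈ G

/-- The complex points of the Mumford-Tate group: the smallest algebraic subgroup over `ℚ` which
contains `h z` for all `z`. -/
def mumfordTate (h : ℂ → Matrix ι ι ℂ) : Set (Matrix ι ι ℂ) :=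
  {g | ∀ G, IsQGroup G → (∀ z, z ≠ 0 → h z ∈ G) → g ∈ G}

/-- The points of the Mumford-Tate group over a field `R`. -/
def InMumfordTate {R : Type} [Field R] [Algebra ℚ R] (h : ℂ → Matrix ι ι ℂ)
    (g : Matrix ι ι R) : Prop :=
  ∀ f : MvPolynomial (ι × ι) ℚ, (∀ m ∈ mumfordTate h, value m f = 0) → value g f = 0

variable {ℓ : ℕ} [Fact ℓ.Prime] {Γ : Type} [Group Γ]

/-- The points of the identity component of the Zariski closure of `ρ(Γ)` over the algebraic
closure of `ℚ_ℓ`: a polynomial that vanishes on the image of a subgroup of finite index vanishes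
at `g`. -/
def InMonodromy (ρ : Γ →* Matrix ι ι ℚ_[ℓ]) (g : Matrix ι ι (AlgebraicClosure ℚ_[ℓ])) : Prop :=
  ∀ f : MvPolynomial (ι × ι) (AlgebraicClosure ℚ_[ℓ]),
    (∃ Δ : Subgroup Γ, Δ.FiniteIndex ∧ ∀ s ∈ Δ,
      aeval (fun q : ι × ι => algebraMap ℚ_[ℓ] (AlgebraicClosure ℚ_[ℓ]) (ρ s q.1 q.2)) f = 0) →
    aeval (fun q : ι × ι => g q.1 q.2) f = 0

/-- The Mumford-Tate conjecture: the two groups agree over `ℚ_ℓ`. -/
def MumfordTateConjecture (h : ℂ → Matrix ι ι ℂ) (ρ : Γ →* Matrix ι ι ℚ_[ℓ]) : Prop :=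
  ∀ g : Matrix ι ι (AlgebraicClosure ℚ_[ℓ]), g.det ≠ 0 → (InMonodromy ρ g ↔ InMumfordTate h g)

/-- an integral representation as a representation over `ℚ_ℓ` -/
def rational (ρ : Γ →* Matrix ι ι ℤ_[ℓ]) : Γ →* Matrix ι ι ℚ_[ℓ] :=
  ((algebraMap ℤ_[ℓ] ℚ_[ℓ]).mapMatrix : Matrix ι ι ℤ_[ℓ] →+* Matrix ι ι ℚ_[ℓ]).toMonoidHom.comp ρ

/-- the Zariski closure of the image of `ρ` over `ℚ_ℓ` is connected: a polynomial that vanishes on
the image of a subgroup of finite index vanishes on the image of `ρ` -/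
def IsConnected (ρ : Γ →* Matrix ι ι ℤ_[ℓ]) : Prop :=
  ∀ f : MvPolynomial (ι × ι) ℚ_[ℓ], (∃ Δ : Subgroup Γ, Δ.FiniteIndex ∧
    ∀ σ ∈ Δ, aeval (fun q : ι × ι => (ρ σ q.1 q.2 : ℚ_[ℓ])) f = 0) →
    ∀ σ, aeval (fun q : ι × ι => (ρ σ q.1 q.2 : ℚ_[ℓ])) f = 0

variable (ℓ) in
/-- `𝐆(ℤ_ℓ)`, `𝐆` the Zariski closure of the Mumford-Tate group in the general linear group over
`ℤ` -/
def integralPoints (h : ℂ → Matrix ι ι ℂ) : Set (Matrix ι ι ℤ_[ℓ]) :=
  {g | IsUnit g.det ∧ InMumfordTate h (g.map (algebraMap ℤ_[ℓ] ℚ_[ℓ]))}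

/-- `Ω` is a subgroup of index at most `m` of `G`: `G` is a union of at most `m` cosets `c Ω` -/
def IsIndexAtMost (m : ℕ) {R : Type} [CommRing R] (Ω G : Set (Matrix ι ι R)) : Prop :=
  Ω ⊆ G ∧ 1 ∈ Ω ∧ (∀ a ∈ Ω, ∀ b ∈ Ω, a * b ∈ Ω) ∧ (∀ a ∈ Ω, a⁻¹ ∈ Ω) ∧
    ∃ C : Set (Matrix ι ι R), C.Finite ∧ C.ncard ≤ m ∧ C ⊆ G ∧ ∀ g ∈ G, ∃ c ∈ C, ∃ ω ∈ Ω, g = c * ω

/-- **the integral and adelic Mumford-Tate conjecture for the prime numbers in `Λ`, with the constant
`m`**: the image of `ρ_ℓ` is contained in `𝐆(ℤ_ℓ)` for all `ℓ` in `Λ`, and the image of `(ρ_ℓ)_ℓ` in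
the product of the groups `𝐆(ℤ_ℓ)` over the `ℓ` in `Λ` contains the product of subgroups `Ω_ℓ` of
index at most `m` -/
def AdelicMumfordTate (m : ℕ) (h : ℂ → Matrix ι ι ℂ)
    (ρ : ∀ (ℓ : ℕ) [Fact ℓ.Prime], Γ →* Matrix ι ι ℤ_[ℓ]) (Λ : Set ℕ) : Prop :=
  (∀ (ℓ : ℕ) [Fact ℓ.Prime], ℓ ∈ Λ → ∀ σ, ρ ℓ σ ∈ integralPoints ℓ h) ∧
  ∃ Ω : ∀ (ℓ : ℕ) [Fact ℓ.Prime], Set (Matrix ι ι ℤ_[ℓ]),
    (∀ (ℓ : ℕ) [Fact ℓ.Prime], ℓ ∈ Λ → IsIndexAtMost m (Ω ℓ) (integralPoints ℓ h)) ∧
    ∀ g : ∀ (ℓ : ℕ) [Fact ℓ.Prime], Matrix ι ι ℤ_[ℓ],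
      (∀ (ℓ : ℕ) [Fact ℓ.Prime], ℓ ∈ Λ → g ℓ ∈ Ω ℓ) →
      ∃ σ : Γ, ∀ (ℓ : ℕ) [Fact ℓ.Prime], ℓ ∈ Λ → ρ ℓ σ = g ℓ

end groups

section sums

variable {ι : Type} [Fintype ι] [DecidableEq ι] {n : ι → ℕ}

/-- a matrix on `N` and matrices on the `T_i` as a block diagonal matrix on `N ⊕ T_1 ⊕ ... ⊕ T_r` -/
def blocks {κ : Type} {R : Type} [Zero R] (a : Matrix κ κ R)
    (t : ∀ i, Matrix (Fin (n i)) (Fin (n i)) R) :
    Matrix (κ ⊕ Σ i, Fin (n i)) (κ ⊕ Σ i, Fin (n i)) R :=
  fromBlocks a 0 0 (blockDiagonal' t)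

/-- The action of `ℂ^×` on `N ⊕ T_1 ⊕ ... ⊕ T_r`: trivial on `N`, and on `T_i` it is multiplication by
`conj z / z`, `1`, `z / conj z` on the parts where `(T i).x` is `1`, `0`, `-1`. -/
def hodge (κ : Type) [Fintype κ] [DecidableEq κ] (T : ∀ i, HS (n i)) (z : ℂ) :
    Matrix (κ ⊕ Σ i, Fin (n i)) (κ ⊕ Σ i, Fin (n i)) ℂ :=
  blocks 1 fun i => 1 + ((starRingEnd ℂ z / z - 1) / 2) • ((T i).x * (T i).x + (T i).x) +
    ((z / starRingEnd ℂ z - 1) / 2) • ((T i).x * (T i).x - (T i).x)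

/-- The representation `α ⊕ β_1 ⊕ ... ⊕ β_r` of the Galois group on `N ⊕ T_1 ⊕ ... ⊕ T_r`. -/
def galois {κ : Type} [Fintype κ] [DecidableEq κ] {ℓ : ℕ} [Fact ℓ.Prime] {Γ : Type} [Group Γ]
    (α : Γ →* Matrix κ κ ℤ_[ℓ]) (β : ∀ i, Γ →* Matrix (Fin (n i)) (Fin (n i)) ℤ_[ℓ]) :
    Γ →* Matrix (κ ⊕ Σ i, Fin (n i)) (κ ⊕ Σ i, Fin (n i)) ℤ_[ℓ] where
  toFun σ := blocks (α σ) fun i => β i σ
  map_one' := (Pool.Agent.T2H36.IX.totS α β).map_one
  map_mul' := (Pool.Agent.T2H36.IX.totS α β).map_mul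

end sums

/-- the absolute Galois group of `K`, with its profinite (Krull) topology -/
abbrev AbsoluteGaloisGroup (K : Type) [Field K] : Type := Gal(AlgebraicClosure K/K)

/-- `σ` is an (arithmetic) Frobenius element at the prime `v` of the number field `K`: for some prime
`Q` of the algebraic closure above `v` it acts on the residue field as `x ↦ x ^ N(v)` -/
def IsFrobenius {K : Type} [Field K] [NumberField K] (v : HeightOneSpectrum (𝓞 K))
    (σ : AbsoluteGaloisGroup K) : Prop :=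
  ∃ Q : Ideal (𝓞 (AlgebraicClosure K)), Q.IsMaximal ∧
    Q.comap (algebraMap (𝓞 K) (𝓞 (AlgebraicClosure K))) = v.asIdeal ∧
    ∀ x : 𝓞 (AlgebraicClosure K), σ • x - x ^ Ideal.absNorm v.asIdeal ∈ Q

/-- `β` is the representation on `T`: it is continuous and preserves the form of `T`, and for all
`v ∉ S` which are prime to `ℓ` the characteristic polynomial of (the image under `s` of) the geometric
Frobenius elements `σ⁻¹` (`σ` arithmetic) at `v` on `T` is `P v` -/
def IsSystem {K : Type} [Field K] [NumberField K] {Γ : Type} [Group Γ] [TopologicalSpace Γ]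
    (s : AbsoluteGaloisGroup K →* Γ) {n : ℕ} (T : HS n)
    (S : Set (HeightOneSpectrum (𝓞 K))) (P : HeightOneSpectrum (𝓞 K) → Polynomial ℚ) (ℓ : ℕ)
    [Fact ℓ.Prime] (β : Γ →* Matrix (Fin n) (Fin n) ℤ_[ℓ]) : Prop :=
  Continuous β ∧
    (∀ σ, (rational β σ)ᵀ * T.Q.map (algebraMap ℚ ℚ_[ℓ]) * rational β σ =
      T.Q.map (algebraMap ℚ ℚ_[ℓ])) ∧
    ∀ v ∉ S, (ℓ : 𝓞 K) ∉ v.asIdeal → ∀ σ : AbsoluteGaloisGroup K, IsFrobenius v σ →
      (rational β (s σ⁻¹)).charpoly = (P v).map (algebraMap ℚ ℚ_[ℓ])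

/-- the conditions on the rank `n` of `T` and the prime number `ℓ₀` -/
def IsGoodPrime {n : ℕ} (T : HS n) (ℓ₀ : ℕ) : Prop :=
  (Odd n ∧ 5 ≤ n ∧ ¬ ℓ₀ ∣ n - 1) ∨
    (Even n ∧ 8 ≤ n ∧ ¬ ℓ₀ ∣ (n - 2) * (n - 4) ∧ Even (padicValRat ℓ₀ T.Q.det))

/-- the set `A` of prime numbers has natural density zero -/
def HasDensityZero (A : Set ℕ) : Prop :=
  Tendsto (fun n : ℕ => (Nat.card {ℓ : ℕ // ℓ ≤ n ∧ ℓ ∈ A} : ℝ) / (Nat.primeCounting n : ℝ))
    atTop (𝓝 0)

/-- **The integral and adelic Mumford-Tate conjecture for `H^2` at 100 percent of the primes, from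
the Mumford-Tate conjecture at one prime: several orthogonal summands.** -/
theorem result {ι : Type} [Fintype ι] [DecidableEq ι] {n : ι → ℕ} (T : ∀ i, HS (n i))
    (κ : Type) [Fintype κ] [DecidableEq κ]
    -- the Mumford-Tate group is `1 × SO(T_1) × ... × SO(T_r)`
    (hT : ∀ t : ∀ i, Matrix (Fin (n i)) (Fin (n i)) ℂ,
      (∀ i, (t i)ᵀ * (T i).Q.map (algebraMap ℚ ℂ) * t i = (T i).Q.map (algebraMap ℚ ℂ)) →
      (∀ i, (t i).det = 1) → blocks 1 t ∈ mumfordTate (hodge κ T))
    -- the Galois group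
    (K : Type) [Field K] [NumberField K] (Γ : Type) [Group Γ] [TopologicalSpace Γ]
    [IsTopologicalGroup Γ] [CompactSpace Γ] (s : AbsoluteGaloisGroup K →* Γ) (hs : Continuous s)
    (S : Set (HeightOneSpectrum (𝓞 K))) (hS : S.Finite)
    (P : ι → HeightOneSpectrum (𝓞 K) → Polynomial ℚ)
    (α : ∀ (ℓ : ℕ) [Fact ℓ.Prime], Γ →* Matrix κ κ ℤ_[ℓ])
    (hα : ∀ (ℓ : ℕ) [Fact ℓ.Prime], (Set.range (α ℓ)).Finite)
    (β : ∀ (i : ι) (ℓ : ℕ) [Fact ℓ.Prime], Γ →* Matrix (Fin (n i)) (Fin (n i)) ℤ_[ℓ])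
    (hsys : ∀ (i : ι) (ℓ : ℕ) [Fact ℓ.Prime], IsSystem s (T i) S (P i) ℓ (β i ℓ))
    (hconn : ∀ (ℓ : ℕ) [Fact ℓ.Prime], IsConnected (galois (α ℓ) fun i => β i ℓ))
    -- one prime number
    (ℓ₀ : ℕ) [Fact ℓ₀.Prime] (hℓ₀ : ∀ i, IsGoodPrime (T i) ℓ₀)
    (hMT : MumfordTateConjecture (hodge κ T)
      ((rational (galois (α ℓ₀) fun i => β i ℓ₀)).comp s)) :
    ∃ Λ : Set ℕ, HasDensityZero {ℓ | ℓ.Prime ∧ ℓ ∉ Λ} ∧
      AdelicMumfordTate (2 ^ Fintype.card ι) (hodge κ T)
        (fun ℓ _ => galois (α ℓ) fun i => β i ℓ) Λ :=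
  Pool.Agent.T2H36.IX.main_sum hT hS hs α hα β
    (fun i ℓ _ => ⟨(hsys i ℓ).1, (hsys i ℓ).2.1, (hsys i ℓ).2.2⟩) hconn ℓ₀ hℓ₀ hMT

end

end Pool.Agent.Results.MP_2b5912_ag.AdelicSumOnePrime
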